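import Pool.Agent.helper35.LV.Spec

/-!
# Row WL of project lv
-/

set_option autoImplicit false

namespace Pool.Agent.LV

open Matrix Pool.Agent.H48SL Pool.Agent.UG

/-- vectors which are linearly dependent of `v` are proportional to `v` -/
theorem WL_cross {n : ℕ} {v w : Fin n → ℤ} (hv : v ≠ 0) (h : ¬ Indep v w) (i r : Fin n) : w i * v r = w r * v i := by
  unfold Indep at h
  push Not at h
  obtain ⟨a, b, hab, hne⟩ := h
  have hb : b ≠ 0 := by
    intro hb
    have ha : a ≠ 0 := fun ha => hne ha hb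
    apply hv
    funext k
    have h1 := congrFun hab k
    simp only [hb, zero_smul, add_zero, Pi.smul_apply, smul_eq_mul, Pi.zero_apply] at h1
    exact (mul_eq_zero.1 h1).resolve_left ha
  have h1 := congrFun hab i
  have h2 := congrFun hab r
  simp only [Pi.add_apply, Pi.smul_apply, smul_eq_mul, Pi.zero_apply] at h1 h2
  have h3 : b * (w i * v r - w r * v i) = 0 := by linear_combination v r * h1 - v i * h2
  exact sub_eq_zero.1 ((mul_eq_zero.1 h3).resolve_left hb)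

theorem WL : WL_stmt := by
  intro n H W v hv hvW hW hPQ x ψ hψv hψx
  obtain ⟨r, hr⟩ : ∃ r, v r ≠ 0 := by
    by_contra hcon
    push Not at hcon
    exact hv (funext hcon)
  have hψW : ∀ w ∈ W, ψ ⬝ᵥ w = 0 := by
    intro w hw
    have h1 : (ψ ⬝ᵥ w) * v r = w r * (ψ ⬝ᵥ v) := by
      simp only [dotProduct]
      rw [Finset.sum_mul, Finset.mul_sum]
      refine Finset.sum_congr rfl fun i _ => ?_
      have h2 := WL_cross hv (hW w hw) i r
      linear_combination ψ i * h2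
    rw [hψv, mul_zero] at h1
    exact (mul_eq_zero.1 h1).resolve_right hr
  obtain ⟨j, hj, h, hh, hfix, hq⟩ := hPQ x ψ hψW hψx
  have hrq : (v r : ℚ) ≠ 0 := by exact_mod_cast hr
  -- the entries
  have hD : ∀ i p : Fin n, ((h : Matrix (Fin n) (Fin n) ℤ) i p - (1 : Matrix (Fin n) (Fin n) ℤ) i p - (j : ℤ) * ψ p * x i) * v r =
      ((h : Matrix (Fin n) (Fin n) ℤ) r p - (1 : Matrix (Fin n) (Fin n) ℤ) r p - (j : ℤ) * ψ p * x r) * v i := by
    intro i p
    have h1 := WL_cross hv (hW _ (hq (Pi.single p 1))) i r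
    have h2 : ∀ k : Fin n, ((h : Matrix (Fin n) (Fin n) ℤ) *ᵥ (Pi.single p 1 : Fin n → ℤ) - (Pi.single p 1 : Fin n → ℤ) -
        ((j : ℤ) * (ψ ⬝ᵥ (Pi.single p 1 : Fin n → ℤ))) • x : Fin n → ℤ) k =
        (h : Matrix (Fin n) (Fin n) ℤ) k p - (1 : Matrix (Fin n) (Fin n) ℤ) k p - (j : ℤ) * ψ p * x k := by
      intro k
      rw [Pi.sub_apply, Pi.sub_apply, Matrix.mulVec_single_one, dotProduct_single_one, Pi.smul_apply, smul_eq_mul,
        Matrix.col_apply, Matrix.one_apply, Pi.single_apply]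
    rw [h2, h2] at h1
    exact h1
  refine ⟨j, hj, h, hh, fun p => (((h : Matrix (Fin n) (Fin n) ℤ) r p - (1 : Matrix (Fin n) (Fin n) ℤ) r p -
    (j : ℤ) * ψ p * x r : ℤ) : ℚ) / (v r : ℚ), ?_, ?_⟩
  · have h1 := congrFun (hfix v hvW) r
    have h2 : ∑ p, ((h : Matrix (Fin n) (Fin n) ℤ) r p - (1 : Matrix (Fin n) (Fin n) ℤ) r p -
        (j : ℤ) * ψ p * x r) * v p = 0 := by
      have h3 : ∀ p, ((h : Matrix (Fin n) (Fin n) ℤ) r p - (1 : Matrix (Fin n) (Fin n) ℤ) r p -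
          (j : ℤ) * ψ p * x r) * v p = (h : Matrix (Fin n) (Fin n) ℤ) r p * v p -
          (1 : Matrix (Fin n) (Fin n) ℤ) r p * v p - ((j : ℤ) * x r) * (ψ p * v p) := fun p => by ring
      rw [Finset.sum_congr rfl fun p _ => h3 p, Finset.sum_sub_distrib, Finset.sum_sub_distrib, ← Finset.mul_sum]
      have h4 : ∑ p, ψ p * v p = 0 := hψv
      have h5 : ∑ p, (h : Matrix (Fin n) (Fin n) ℤ) r p * v p = v r := h1
      have h6 : ∑ p, (1 : Matrix (Fin n) (Fin n) ℤ) r p * v p = v r := congrFun (Matrix.one_mulVec v) r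
      rw [h4, h5, h6]
      ring
    have h7 : (∑ p, ((((h : Matrix (Fin n) (Fin n) ℤ) r p - (1 : Matrix (Fin n) (Fin n) ℤ) r p -
        (j : ℤ) * ψ p * x r : ℤ) : ℚ) * (v p : ℚ))) = 0 := by exact_mod_cast h2
    show ∑ p, (((h : Matrix (Fin n) (Fin n) ℤ) r p - (1 : Matrix (Fin n) (Fin n) ℤ) r p -
        (j : ℤ) * ψ p * x r : ℤ) : ℚ) / (v r : ℚ) * (v p : ℚ) = 0
    rw [Finset.sum_congr rfl fun p _ => div_mul_eq_mul_div _ _ _, ← Finset.sum_div, h7, zero_div]
  · ext i p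
    rw [qg_apply, Matrix.add_apply, Matrix.add_apply, vecMulVec_apply, vecMulVec_apply, Pi.smul_apply, smul_eq_mul]
    have h1 := congrArg (fun z : ℤ => (z : ℚ)) (hD i p)
    have h0 : ((1 : Matrix (Fin n) (Fin n) ℤ) i p : ℚ) = (1 : Matrix (Fin n) (Fin n) ℚ) i p := by
      rw [Matrix.one_apply, Matrix.one_apply]
      split_ifs
      · exact Int.cast_one
      · exact Int.cast_zero
    simp only [castV]
    rw [← h0]
    rw [mul_div_assoc', eq_comm, ← sub_eq_zero]
    push_cast at h1 ⊢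
    field_simp
    linear_combination (-1 : ℚ) * h1

end Pool.Agent.LV
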